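import Pool.Agent.Helper15.FC.St1

set_option autoImplicit false

/-!
Project FC, module DM: the dimension of `Vj y j` is `|I| j + O(1)`.
-/

open Polynomial

namespace Pool.Agent.Helper60.FC

open Pool.Agent.Helper15.FC

private theorem ymon_mem {L : Type} [Field L] {b q : ℕ} (y : Fin b → PowerSeries L)
    (e : Fin b → Fin q) : ymon y e ∈ Vj y (∑ t, (e t : ℕ)) := by
  classical
  refine ⟨∏ t, MvPolynomial.X (some t) ^ (e t : ℕ), ?_, ?_⟩
  · rw [SetLike.mem_coe, MvPolynomial.mem_restrictTotalDegree]
    refine (MvPolynomial.totalDegree_finset_prod _ _).trans ?_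
    refine Finset.sum_le_sum fun t _ => ?_
    rw [MvPolynomial.totalDegree_X_pow]
  · change ev y _ = _
    unfold ev ymon
    rw [map_prod]
    refine Finset.prod_congr rfl fun t _ => ?_
    rw [map_pow, MvPolynomial.aeval_X]
    rfl

private theorem sum_le_bq {b q : ℕ} (e : Fin b → Fin q) : ∑ t, (e t : ℕ) ≤ b * q := by
  have h : ∑ t : Fin b, (e t : ℕ) ≤ ∑ _t : Fin b, q :=
    Finset.sum_le_sum fun t _ => (e t).2.le
  simpa using h

/-- the family `X^i y^e`, `e ∈ I`, `i < n` -/
private noncomputable def fam {L : Type} [Field L] {b q : ℕ} (y : Fin b → PowerSeries L)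
    (I : Finset (Fin b → Fin q)) (n : ℕ) : I × Fin n → PowerSeries L :=
  fun p => PowerSeries.X ^ (p.2 : ℕ) * ymon y (p.1 : Fin b → Fin q)

private theorem fam_indep {L : Type} [Field L] {b q : ℕ} (y : Fin b → PowerSeries L)
    (I : Finset (Fin b → Fin q))
    (hind : ∀ G : (Fin b → Fin q) → L[X], ∑ e ∈ I, (G e : PowerSeries L) * ymon y e = 0 →
      ∀ e ∈ I, G e = 0) (n : ℕ) : LinearIndependent L (fam y I n) := by
  classical
  rw [Fintype.linearIndependent_iff]
  intro g hg
  let G : (Fin b → Fin q) → L[X] := fun e =>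
    if h : e ∈ I then ∑ i : Fin n, Polynomial.C (g (⟨e, h⟩, i)) * Polynomial.X ^ (i : ℕ) else 0
  have hG : ∑ e ∈ I, (G e : PowerSeries L) * ymon y e = 0 := by
    rw [← hg, Fintype.sum_prod_type, ← Finset.sum_coe_sort I]
    refine Finset.sum_congr rfl fun e _ => ?_
    have h1 : G (e : Fin b → Fin q) =
        ∑ i : Fin n, Polynomial.C (g (e, i)) * Polynomial.X ^ (i : ℕ) := by
      simp only [G, dif_pos e.2]
    rw [h1]
    have h2 : ((∑ i : Fin n, Polynomial.C (g (e, i)) * Polynomial.X ^ (i : ℕ) : L[X]) :
        PowerSeries L) = ∑ i : Fin n, PowerSeries.C (g (e, i)) * PowerSeries.X ^ (i : ℕ) := by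
      have := map_sum (Polynomial.coeToPowerSeries.ringHom (R := L))
        (fun i : Fin n => Polynomial.C (g (e, i)) * Polynomial.X ^ (i : ℕ)) Finset.univ
      simp only [Polynomial.coeToPowerSeries.ringHom_apply] at this
      rw [this]
      refine Finset.sum_congr rfl fun i _ => ?_
      rw [Polynomial.coe_mul, Polynomial.coe_C, Polynomial.coe_pow, Polynomial.coe_X]
    rw [h2, Finset.sum_mul]
    refine Finset.sum_congr rfl fun i _ => ?_
    unfold fam
    rw [PowerSeries.smul_eq_C_mul, mul_assoc]
  rintro ⟨e, i⟩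
  have h3 := hind G hG e e.2
  have h4 : G (e : Fin b → Fin q) =
      ∑ i : Fin n, Polynomial.C (g (e, i)) * Polynomial.X ^ (i : ℕ) := by
    simp only [G, dif_pos e.2]
  rw [h4] at h3
  have h5 := congrArg (fun p : L[X] => p.coeff (i : ℕ)) h3
  simp only [Polynomial.finset_sum_coeff, Polynomial.coeff_C_mul, Polynomial.coeff_X_pow,
    Polynomial.coeff_zero] at h5
  rw [Finset.sum_eq_single i] at h5
  · simpa using h5
  · intro k _ hk
    rw [if_neg, mul_zero]
    intro h
    exact hk (Fin.ext h.symm)
  · intro h
    exact absurd (Finset.mem_univ i) h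

/-- module DM -/
theorem hDM (hVB : StVB) : StDM := by
  intro L _ b q y I D C hD
  classical
  obtain ⟨hD0, hne, hind, hrep⟩ := hD
  obtain ⟨hmul, hmono, hX, _, _, hfd, _⟩ := hVB L b y
  refine ⟨I.card * (b * q) + I.card * (C + 1), fun j => ⟨?_, ?_⟩⟩
  · -- lower bound
    haveI := hfd j
    have hmem : ∀ p : I × Fin (j + 1 - b * q), fam y I (j + 1 - b * q) p ∈ Vj y j := by
      rintro ⟨e, i⟩
      have h1 := hmul i _ _ _ (hX i) (ymon_mem y (e : Fin b → Fin q))
      refine hmono _ _ ?_ h1
      have h2 := sum_le_bq (e : Fin b → Fin q)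
      have h3 := i.2
      omega
    have hli : LinearIndependent L
        (fun p : I × Fin (j + 1 - b * q) => (⟨fam y I _ p, hmem p⟩ : Vj y j)) := by
      have h := fam_indep y I hind (j + 1 - b * q)
      exact LinearIndependent.of_comp (Vj y j).subtype h
    have hc := hli.fintype_card_le_finrank
    rw [Fintype.card_prod, Fintype.card_coe, Fintype.card_fin] at hc
    have h4 : I.card * j ≤ I.card * (j + 1 - b * q) + I.card * (b * q) := by
      rw [← Nat.mul_add]
      exact Nat.mul_le_mul_left _ (by omega)
    omega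
  · -- upper bound
    haveI := hfd j
    set S : Submodule L (PowerSeries L) :=
      Submodule.span L (Set.range (fam y I (j + C + 1))) with hS
    haveI : FiniteDimensional L S := FiniteDimensional.span_of_finite L (Set.finite_range _)
    have hDS : ∀ u ∈ Vj y j, (D : PowerSeries L) * u ∈ S := by
      intro u hu
      obtain ⟨G, hG1, hG2⟩ := hrep j u hu
      rw [hG2]
      refine Submodule.sum_mem _ fun e he => ?_
      have h1 : (G e : PowerSeries L) * ymon y e =
          ∑ i : Fin (j + C + 1), (G e).coeff i • fam y I (j + C + 1) (⟨e, he⟩, i) := by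
        have h2 : (G e) = ∑ i ∈ Finset.range (j + C + 1),
            Polynomial.C ((G e).coeff i) * Polynomial.X ^ i := by
          conv_lhs => rw [(G e).as_sum_range_C_mul_X_pow' (n := j + C + 1)
            (Nat.lt_succ_of_le (hG1 e))]
        have h3 : (G e : PowerSeries L) = ∑ i ∈ Finset.range (j + C + 1),
            PowerSeries.C ((G e).coeff i) * PowerSeries.X ^ i := by
          conv_lhs => rw [h2]
          have := map_sum (Polynomial.coeToPowerSeries.ringHom (R := L))
            (fun i : ℕ => Polynomial.C ((G e).coeff i) * Polynomial.X ^ i)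
            (Finset.range (j + C + 1))
          simp only [Polynomial.coeToPowerSeries.ringHom_apply] at this
          rw [this]
          refine Finset.sum_congr rfl fun i _ => ?_
          rw [Polynomial.coe_mul, Polynomial.coe_C, Polynomial.coe_pow, Polynomial.coe_X]
        rw [h3, Finset.sum_mul, ← Fin.sum_univ_eq_sum_range
          (fun i => PowerSeries.C ((G e).coeff i) * PowerSeries.X ^ i * ymon y e)]
        refine Finset.sum_congr rfl fun i _ => ?_
        unfold fam
        rw [PowerSeries.smul_eq_C_mul, mul_assoc]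
      rw [h1]
      refine Submodule.sum_mem _ fun i _ => Submodule.smul_mem _ _ ?_
      exact Submodule.subset_span ⟨_, rfl⟩
    let f : Vj y j →ₗ[L] S :=
      LinearMap.codRestrict S ((LinearMap.mulLeft L (D : PowerSeries L)).comp (Vj y j).subtype)
        (fun u => hDS u u.2)
    have hf : Function.Injective f := by
      intro u v huv
      have h1 : (D : PowerSeries L) * (u : PowerSeries L) = (D : PowerSeries L) * v :=
        congrArg Subtype.val huv
      have h2 : (D : PowerSeries L) ≠ 0 := by
        intro h
        exact hD0 (Polynomial.coe_eq_zero_iff.1 h)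
      exact Subtype.ext (mul_left_cancel₀ h2 h1)
    have h5 := LinearMap.finrank_le_finrank_of_injective hf
    have h6 : Module.finrank L S ≤ Fintype.card (I × Fin (j + C + 1)) :=
      finrank_range_le_card (fam y I (j + C + 1))
    rw [Fintype.card_prod, Fintype.card_coe, Fintype.card_fin] at h6
    have h7 : I.card * (j + C + 1) = I.card * j + I.card * (C + 1) := by ring
    omega

end Pool.Agent.Helper60.FC
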